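import Pool.Agent.Helper89.Stz.Defs
import Pool.Agent.Helper65.Stz.Basic

/-!
# C5: `L²` bound on windows around `(1 / v) ℤ`
-/

set_option autoImplicit false

namespace Stz

open Finset

open scoped ComplexConjugate

namespace Win

/-- a finite set of naturals, pairwise congruent mod `L` and of diameter at most `D` -/
theorem card_progression (T : Finset ℕ) (L D : ℕ) (hL : 1 ≤ L)
    (h1 : ∀ n ∈ T, ∀ n' ∈ T, n' ≤ n → n - n' ≤ D) (h2 : ∀ n ∈ T, ∀ n' ∈ T, n' ≤ n → L ∣ n - n') :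
    T.card ≤ D / L + 1 := by
  classical
  rcases T.eq_empty_or_nonempty with rfl | hT
  · simp
  set n0 := T.min' hT with hn0
  have hn0T : n0 ∈ T := T.min'_mem hT
  have hle : ∀ n ∈ T, n0 ≤ n := fun n hn => T.min'_le n hn
  have hcard : (T.image fun n => (n - n0) / L).card = T.card := by
    apply card_image_of_injOn
    intro n hn n' hn' h
    simp only [mem_coe] at hn hn'
    obtain ⟨a, ha⟩ := h2 n hn n0 hn0T (hle n hn)
    obtain ⟨b, hb⟩ := h2 n' hn' n0 hn0T (hle n' hn')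
    simp only [ha, hb] at h
    rw [Nat.mul_div_cancel_left _ hL, Nat.mul_div_cancel_left _ hL] at h
    have h3 := hle n hn
    have h4 := hle n' hn'
    rw [h] at ha
    omega
  rw [← hcard]
  have hsub : (T.image fun n => (n - n0) / L) ⊆ range (D / L + 1) := by
    intro k hk
    rw [mem_image] at hk
    obtain ⟨n, hn, rfl⟩ := hk
    rw [mem_range, Nat.lt_succ_iff]
    exact Nat.div_le_div_right (h1 n hn n0 hn0T (hle n hn))
  calc _ ≤ (range (D / L + 1)).card := card_le_card hsub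
    _ = D / L + 1 := card_range _

/-- the count of square roots in an interval -/
theorem card_roots (T : Finset ℕ) (v D : ℕ) (hv : 1 ≤ v)
    (h1 : ∀ n ∈ T, ∀ n' ∈ T, n' ≤ n → n - n' ≤ D)
    (h2 : ∀ n ∈ T, ∀ n' ∈ T, (v : ℤ) ∣ (n : ℤ) ^ 2 - (n' : ℤ) ^ 2) :
    (T.card : ℝ) ≤ ((D : ℝ) / v + 1) * sg v := by
  classical
  rcases T.eq_empty_or_nonempty with rfl | ⟨n1, hn1⟩
  · simp only [card_empty, Nat.cast_zero]; positivity
  set Tu : ℕ → Finset ℕ := fun u => T.filter fun n => (u : ℤ) ∣ (n : ℤ) - n1 ∧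
    ((v / u : ℕ) : ℤ) ∣ (n : ℤ) + n1 with hTu
  have hcov : T ⊆ v.divisors.biUnion Tu := by
    intro n hn
    rw [mem_biUnion]
    set d : ℤ := (n : ℤ) - n1 with hd
    set u : ℕ := Int.gcd v d with hu
    have hu0 : 0 < u := Int.gcd_pos_of_ne_zero_left _ (by exact_mod_cast (by omega : v ≠ 0))
    have huv : u ∣ v := by
      have := Int.gcd_dvd_left (v : ℤ) d
      exact_mod_cast this
    refine ⟨u, Nat.mem_divisors.2 ⟨huv, by omega⟩, ?_⟩
    rw [hTu, mem_filter]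
    refine ⟨hn, Int.gcd_dvd_right _ _, ?_⟩
    have h3 : (v : ℤ) ∣ d * ((n : ℤ) + n1) := by
      have := h2 n hn n1 hn1
      have h4 : (n : ℤ) ^ 2 - (n1 : ℤ) ^ 2 = d * ((n : ℤ) + n1) := by rw [hd]; ring
      rwa [h4] at this
    obtain ⟨w, hw⟩ := huv
    have hw' : v / u = w := by rw [hw, Nat.mul_div_cancel_left _ hu0]
    rw [hw']
    obtain ⟨e, he⟩ : (u : ℤ) ∣ d := Int.gcd_dvd_right _ _
    have hcop : IsCoprime (w : ℤ) e := by
      rw [Int.isCoprime_iff_gcd_eq_one]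
      have h5 : Int.gcd (v : ℤ) d = u * Int.gcd (w : ℤ) e := by
        rw [hw, he]
        push_cast
        rw [Int.gcd_mul_left, Int.natAbs_natCast]
      rw [← hu] at h5
      have h6 : u * 1 = u * Int.gcd (w : ℤ) e := by rw [mul_one]; exact h5
      exact (Nat.eq_of_mul_eq_mul_left hu0 h6).symm
    have h7 : (w : ℤ) ∣ e * ((n : ℤ) + n1) := by
      rw [hw, he] at h3
      push_cast at h3
      rw [mul_assoc] at h3
      exact Int.dvd_of_mul_dvd_mul_left (by exact_mod_cast hu0.ne') h3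
    exact hcop.dvd_of_dvd_mul_left h7
  have hTuc : ∀ u ∈ v.divisors, ((Tu u).card : ℝ) ≤ Nat.gcd u (v / u) * ((D : ℝ) / v + 1) := by
    intro u hu
    rw [Nat.mem_divisors] at hu
    obtain ⟨w, hw⟩ := hu.1
    have hu0 : 0 < u := Nat.pos_of_ne_zero (by rintro rfl; simp at hw; omega)
    have hw0 : 0 < w := Nat.pos_of_ne_zero (by rintro rfl; simp at hw; omega)
    have hw' : v / u = w := by rw [hw, Nat.mul_div_cancel_left _ hu0]
    have hL0 : 0 < Nat.lcm u w := Nat.lcm_pos hu0 hw0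
    have h3 : (Tu u).card ≤ D / Nat.lcm u w + 1 := by
      apply card_progression _ _ _ hL0
      · intro n hn n' hn' h
        exact h1 n (mem_filter.1 hn).1 n' (mem_filter.1 hn').1 h
      · intro n hn n' hn' h
        have a1 := (mem_filter.1 hn).2
        have a2 := (mem_filter.1 hn').2
        rw [hw'] at a1 a2
        apply Nat.lcm_dvd
        · have : (u : ℤ) ∣ ((n - n' : ℕ) : ℤ) := by
            rw [Nat.cast_sub h]
            have := dvd_sub a1.1 a2.1
            have h4 : (n : ℤ) - n1 - ((n' : ℤ) - n1) = (n : ℤ) - n' := by ring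
            rwa [h4] at this
          exact_mod_cast this
        · have : (w : ℤ) ∣ ((n - n' : ℕ) : ℤ) := by
            rw [Nat.cast_sub h]
            have := dvd_sub a1.2 a2.2
            have h4 : (n : ℤ) + n1 - ((n' : ℤ) + n1) = (n : ℤ) - n' := by ring
            rwa [h4] at this
          exact_mod_cast this
    rw [hw']
    have hg0 : 0 < Nat.gcd u w := Nat.gcd_pos_of_pos_left _ hu0
    have hgl : (Nat.gcd u w : ℝ) * Nat.lcm u w = v := by
      rw [hw]; exact_mod_cast Nat.gcd_mul_lcm u w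
    have h4 : ((D / Nat.lcm u w : ℕ) : ℝ) ≤ (D : ℝ) / Nat.lcm u w := Nat.cast_div_le
    have h5 : (D : ℝ) / Nat.lcm u w = Nat.gcd u w * ((D : ℝ) / v) := by
      rw [← hgl]
      have : (Nat.gcd u w : ℝ) ≠ 0 := by positivity
      have : (Nat.lcm u w : ℝ) ≠ 0 := by positivity
      field_simp
    calc ((Tu u).card : ℝ) ≤ ((D / Nat.lcm u w + 1 : ℕ) : ℝ) := by exact_mod_cast h3
      _ = ((D / Nat.lcm u w : ℕ) : ℝ) + 1 := by push_cast; ring
      _ ≤ Nat.gcd u w * ((D : ℝ) / v) + Nat.gcd u w := by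
          have : (1 : ℝ) ≤ Nat.gcd u w := by exact_mod_cast hg0
          linarith
      _ = _ := by ring
  calc (T.card : ℝ) ≤ ((v.divisors.biUnion Tu).card : ℝ) := by exact_mod_cast card_le_card hcov
    _ ≤ ∑ u ∈ v.divisors, ((Tu u).card : ℝ) := by exact_mod_cast card_biUnion_le
    _ ≤ ∑ u ∈ v.divisors, Nat.gcd u (v / u) * ((D : ℝ) / v + 1) := sum_le_sum hTuc
    _ = ((D : ℝ) / v + 1) * sg v := by
        rw [← sum_mul, mul_comm]
        unfold sg
        push_cast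
        rfl

/-- Parseval with bounded multiplicity -/
theorem orth_le (A : ℕ) [NeZero A] {ι : Type*} (S : Finset ι) (φ : ι → ZMod A) (c : ι → ℂ)
    (M : ℝ) (hM : ∀ k : ZMod A, ((S.filter fun i => φ i = k).card : ℝ) ≤ M) :
    (A : ℝ)⁻¹ * ∑ y : ZMod A, ‖∑ i ∈ S, c i * ps A (φ i * y)‖ ^ 2 ≤ M * ∑ i ∈ S, ‖c i‖ ^ 2 := by
  classical
  have h1 : ∀ y : ZMod A, ∑ i ∈ S, c i * ps A (φ i * y) =
      ∑ k ∈ S.image φ, (∑ i ∈ S.filter (fun i => φ i = k), c i) * ps A (id k * y) := by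
    intro y
    rw [← sum_fiberwise_of_maps_to (g := φ) (fun i hi => mem_image_of_mem φ hi)]
    refine sum_congr rfl fun k _ => ?_
    rw [sum_mul]
    refine sum_congr rfl fun i hi => ?_
    rw [(mem_filter.1 hi).2, id]
  simp only [h1]
  rw [orth A (S.image φ) id (fun _ _ _ _ h => h)]
  have h2 : ∀ k : ZMod A, ‖∑ i ∈ S.filter (fun i => φ i = k), c i‖ ^ 2 ≤
      M * ∑ i ∈ S.filter (fun i => φ i = k), ‖c i‖ ^ 2 := by
    intro k
    have h3 : ‖∑ i ∈ S.filter (fun i => φ i = k), c i‖ ≤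
        ∑ i ∈ S.filter (fun i => φ i = k), ‖c i‖ := norm_sum_le _ _
    have h4 := sum_mul_sq_le_sq_mul_sq (S.filter fun i => φ i = k) (fun i => ‖c i‖) (fun _ => 1)
    simp only [mul_one, one_pow, sum_const, nsmul_eq_mul, mul_one] at h4
    calc ‖∑ i ∈ S.filter (fun i => φ i = k), c i‖ ^ 2
        ≤ (∑ i ∈ S.filter (fun i => φ i = k), ‖c i‖) ^ 2 := pow_le_pow_left₀ (norm_nonneg _) h3 2
      _ ≤ (∑ i ∈ S.filter (fun i => φ i = k), ‖c i‖ ^ 2) *
            ((S.filter fun i => φ i = k).card : ℝ) := h4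
      _ ≤ (∑ i ∈ S.filter (fun i => φ i = k), ‖c i‖ ^ 2) * M :=
          mul_le_mul_of_nonneg_left (hM k) (sum_nonneg fun _ _ => sq_nonneg _)
      _ = _ := mul_comm _ _
  calc ∑ k ∈ S.image φ, ‖∑ i ∈ S.filter (fun i => φ i = k), c i‖ ^ 2
      ≤ ∑ k ∈ S.image φ, M * ∑ i ∈ S.filter (fun i => φ i = k), ‖c i‖ ^ 2 :=
        sum_le_sum fun k _ => h2 k
    _ = M * ∑ i ∈ S, ‖c i‖ ^ 2 := by
        rw [← mul_sum, sum_fiberwise_of_maps_to (g := φ) (fun i hi => mem_image_of_mem φ hi)]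

/-- `ps` in terms of the centred representative -/
theorem ps_re (A : ℕ) [NeZero A] (j : ℕ) (u : ZMod A) :
    1 - (2 * Real.pi * (j * nrm A u)) ^ 2 / 2 ≤ (ps A ((j : ZMod A) * u)).re := by
  have hA : (A : ℝ) ≠ 0 := Nat.cast_ne_zero.2 (NeZero.ne A)
  have h1 : (j : ZMod A) * u = (((j : ℤ) * u.valMinAbs : ℤ) : ZMod A) := by
    rw [Int.cast_mul, ZMod.coe_valMinAbs, Int.cast_natCast]
  have h2 : (ps A ((j : ZMod A) * u)).re = Real.cos (2 * Real.pi * (j * (u.valMinAbs / A))) := by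
    rw [h1]
    unfold ps
    rw [ZMod.stdAddChar_coe]
    rw [show (2 * Real.pi * Complex.I * (((j : ℤ) * u.valMinAbs : ℤ) : ℂ) / A : ℂ) =
      ((2 * Real.pi * (j * (u.valMinAbs / A)) : ℝ) : ℂ) * Complex.I by push_cast; ring]
    rw [Complex.exp_ofReal_mul_I_re]
  rw [h2]
  have h3 := Real.one_sub_sq_div_two_le_cos (x := 2 * Real.pi * (j * (u.valMinAbs / A)))
  have h4 : (2 * Real.pi * (j * nrm A u)) ^ 2 = (2 * Real.pi * (j * (u.valMinAbs / A))) ^ 2 := by
    have h5 : (nrm A u) ^ 2 = (u.valMinAbs / A : ℝ) ^ 2 := by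
      unfold nrm
      rw [div_pow, div_pow, sq_abs]
    rw [mul_pow, mul_pow (j : ℝ), h5]
    ring
  rw [h4]
  exact h3

theorem kernel_lower (A R : ℕ) [NeZero A] (u : ZMod A)
    (hu : ((R : ℝ) - 1) * nrm A u ≤ 1 / 8) :
    (R : ℝ) / 2 ≤ ‖∑ j ∈ range R, ps A ((j : ZMod A) * u)‖ := by
  have h1 : (R : ℝ) / 2 ≤ (∑ j ∈ range R, ps A ((j : ZMod A) * u)).re := by
    rw [Complex.re_sum]
    calc (R : ℝ) / 2 = ∑ j ∈ range R, (1 / 2 : ℝ) := by
          rw [sum_const, card_range, nsmul_eq_mul]; ring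
      _ ≤ _ := by
          refine sum_le_sum fun j hj => ?_
          have h2 := ps_re A j u
          have h3 : (j : ℝ) ≤ R - 1 := by
            have := mem_range.1 hj
            have : j + 1 ≤ R := this
            have : ((j + 1 : ℕ) : ℝ) ≤ R := by exact_mod_cast this
            push_cast at this
            linarith
          have h4 : 0 ≤ nrm A u := by unfold nrm; positivity
          have h5 : (j : ℝ) * nrm A u ≤ 1 / 8 :=
            (mul_le_mul_of_nonneg_right h3 h4).trans hu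
          have h6 : 0 ≤ (j : ℝ) * nrm A u := by positivity
          have h7 : 2 * Real.pi * (j * nrm A u) ≤ 1 := by
            have hp := Real.pi_lt_four
            have hp0 := Real.pi_pos
            nlinarith
          have h8 : 0 ≤ 2 * Real.pi * (j * nrm A u) := by
            have := Real.pi_pos
            positivity
          nlinarith
  exact h1.trans (Complex.re_le_norm _)

theorem ps_sq_mul (A : ℕ) [NeZero A] (v j n : ℕ) (z z' : ZMod A) :
    ps A ((j : ZMod A) * (v * (z - z'))) * ps A (((n ^ 2 : ℕ) : ZMod A) * z) =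
      ps A (-((j : ZMod A) * v * z')) * ps A (((j * v + n ^ 2 : ℕ) : ZMod A) * z) := by
  rw [← ps_add, ← ps_add]
  congr 1
  push_cast
  ring

end Win

theorem window : ∃ C : ℝ, 0 < C ∧ ∀ (N N0 b A : ℕ) [NeZero A], 1 ≤ N0 → N0 ≤ N → N0 ≤ b + 1 →
    16 * (b + N) ^ 2 < A → ∀ (a : ℕ → ℕ → ℂ) (z' : ZMod A) (v : ℕ) (S : ℝ), 1 ≤ v → 1 ≤ S →
    v * S ≤ N →
    ∑ z ∈ univ.filter (fun z : ZMod A => nrm A (v * (z - z')) ≤ v * S / N ^ 2),
      ∑ y, ‖F A (Icc (b + 1) (b + N0)) N a z y‖ ^ 2 ≤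
        C * sg v / N0 * nsq (Icc (b + 1) (b + N0)) N a * A ^ 2 := by
  classical
  refine ⟨68, by norm_num, ?_⟩
  intro N N0 b A _ hN0 hN0N hN0b hA a z' v S hv hS hvS
  have hN1 : 1 ≤ N := hN0.trans hN0N
  set I := Icc (b + 1) (b + N0) with hI
  have hA0 : (0 : ℝ) < A := Nat.cast_pos.2 (Nat.pos_of_ne_zero (NeZero.ne A))
  have hNr : (1 : ℝ) ≤ N := by exact_mod_cast hN1
  have hN0r : (1 : ℝ) ≤ N0 := by exact_mod_cast hN0
  have hvr : (1 : ℝ) ≤ v := by exact_mod_cast hv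
  have hvS0 : 0 < v * S := by positivity
  -- the length
  set R : ℕ := max 1 ⌊(N : ℝ) ^ 2 / (8 * (v * S))⌋₊ with hR
  have hR1 : 1 ≤ R := le_max_left _ _
  have hRr : (1 : ℝ) ≤ R := by exact_mod_cast hR1
  have hX0 : 0 ≤ (N : ℝ) ^ 2 / (8 * (v * S)) := by positivity
  have hRup : (R : ℝ) - 1 ≤ (N : ℝ) ^ 2 / (8 * (v * S)) := by
    rcases le_total 1 ⌊(N : ℝ) ^ 2 / (8 * (v * S))⌋₊ with h | h
    · rw [hR, max_eq_right h]
      have := Nat.floor_le hX0
      linarith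
    · rw [hR, max_eq_left h]
      simpa using hX0
  have hRlow : (N : ℝ) ^ 2 / (8 * (v * S)) < R + 1 := by
    have h1 := Nat.lt_floor_add_one ((N : ℝ) ^ 2 / (8 * (v * S)))
    have h2 : (⌊(N : ℝ) ^ 2 / (8 * (v * S))⌋₊ : ℝ) ≤ R := Nat.cast_le.2 (le_max_right _ _)
    linarith
  have hN0R : (N0 : ℝ) ≤ 16 * R := by
    have h1 : (N : ℝ) / 8 ≤ (N : ℝ) ^ 2 / (8 * (v * S)) := by
      rw [div_le_div_iff₀ (by norm_num) (by positivity)]
      nlinarith
    have h2 : (N0 : ℝ) ≤ N := by exact_mod_cast hN0N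
    linarith
  -- `l2y`
  have hNA : N ≤ A := by nlinarith
  set G : ℕ → ZMod A → ℂ := fun m z => ∑ n ∈ I, a n m * ps A (((n ^ 2 : ℕ) : ZMod A) * z) with hG
  have hl2 : ∀ z : ZMod A, ∑ y : ZMod A, ‖F A I N a z y‖ ^ 2 =
      A * ∑ m ∈ range N, ‖G m z‖ ^ 2 := by
    intro z
    have := l2y A N hNA I a z
    rw [← this, ← mul_assoc, mul_inv_cancel₀ hA0.ne', one_mul]
  set P : ZMod A → ℂ := fun z => ∑ j ∈ range R, ps A ((j : ZMod A) * (v * (z - z'))) with hP
  have hPl : ∀ z : ZMod A, nrm A (v * (z - z')) ≤ v * S / N ^ 2 →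
      1 ≤ 4 / (R : ℝ) ^ 2 * ‖P z‖ ^ 2 := by
    intro z hz
    have h0 : 0 ≤ nrm A (v * (z - z')) := by unfold nrm; positivity
    have h1 : ((R : ℝ) - 1) * nrm A (v * (z - z')) ≤ 1 / 8 := by
      calc ((R : ℝ) - 1) * nrm A (v * (z - z'))
          ≤ (N : ℝ) ^ 2 / (8 * (v * S)) * (v * S / N ^ 2) :=
            mul_le_mul hRup hz h0 hX0
        _ = 1 / 8 := by field_simp
    have h2 := Win.kernel_lower A R _ h1
    have h3 : ((R : ℝ) / 2) ^ 2 ≤ ‖P z‖ ^ 2 := pow_le_pow_left₀ (by positivity) h2 2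
    calc (1 : ℝ) = 4 / (R : ℝ) ^ 2 * ((R : ℝ) / 2) ^ 2 := by field_simp; norm_num
      _ ≤ _ := mul_le_mul_of_nonneg_left h3 (by positivity)
  -- multiplicity
  have hmult : ∀ k : ZMod A, (((range R ×ˢ I).filter fun p : ℕ × ℕ =>
      ((p.1 * v + p.2 ^ 2 : ℕ) : ZMod A) = k).card : ℝ) ≤ 17 * (R / N0) * sg v := by
    intro k
    set T2 := (range R ×ˢ I).filter fun p : ℕ × ℕ =>
      ((p.1 * v + p.2 ^ 2 : ℕ) : ZMod A) = k with hT2
    have hsize : ∀ p ∈ T2, p.1 * v + p.2 ^ 2 < A := by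
      intro p hp
      rw [hT2, mem_filter, mem_product, mem_range, hI, mem_Icc] at hp
      have h1 : ((p.1 : ℝ)) ≤ R - 1 := by
        have : ((p.1 + 1 : ℕ) : ℝ) ≤ R := by exact_mod_cast hp.1.1
        push_cast at this
        linarith
      have h2 : (p.1 : ℝ) * v ≤ (N : ℝ) ^ 2 := by
        calc (p.1 : ℝ) * v ≤ (N : ℝ) ^ 2 / (8 * (v * S)) * v :=
              mul_le_mul_of_nonneg_right (h1.trans hRup) (by positivity)
          _ = (N : ℝ) ^ 2 / (8 * S) := by field_simp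
          _ ≤ (N : ℝ) ^ 2 := div_le_self (by positivity) (by linarith)
      have h3 : p.1 * v ≤ N ^ 2 := by exact_mod_cast h2
      have h4 : p.2 ≤ b + N := by omega
      have h5 : p.2 ^ 2 ≤ (b + N) ^ 2 := Nat.pow_le_pow_left h4 2
      have h6 : N ^ 2 ≤ (b + N) ^ 2 := Nat.pow_le_pow_left (by omega) 2
      have h7 : 1 ≤ (b + N) ^ 2 := Nat.one_le_pow _ _ (by omega)
      omega
    have heq : ∀ p ∈ T2, ∀ p' ∈ T2, p.1 * v + p.2 ^ 2 = p'.1 * v + p'.2 ^ 2 := by
      intro p hp p' hp'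
      have h1 := (mem_filter.1 hp).2
      have h2 := (mem_filter.1 hp').2
      have h3 : ((p.1 * v + p.2 ^ 2 : ℕ) : ZMod A) = ((p'.1 * v + p'.2 ^ 2 : ℕ) : ZMod A) :=
        h1.trans h2.symm
      have h4 := (ZMod.natCast_eq_natCast_iff' _ _ A).1 h3
      rwa [Nat.mod_eq_of_lt (hsize p hp), Nat.mod_eq_of_lt (hsize p' hp')] at h4
    have hinj : Set.InjOn (fun p : ℕ × ℕ => p.2) (T2 : Set (ℕ × ℕ)) := by
      intro p hp p' hp' h
      have h1 := heq p hp p' hp'
      simp only at h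
      rw [h] at h1
      have h2 : p.1 * v = p'.1 * v := by omega
      exact Prod.ext (Nat.eq_of_mul_eq_mul_right (by omega) h2) h
    rw [← card_image_of_injOn hinj]
    set D : ℕ := R * v / (2 * N0) with hD
    have hcr := Win.card_roots (T2.image fun p => p.2) v D hv
      (by
        intro n hn n' hn' hle
        rw [mem_image] at hn hn'
        obtain ⟨p, hp, rfl⟩ := hn
        obtain ⟨p', hp', rfl⟩ := hn'
        have h1 := heq p hp p' hp'
        have hp1 := hp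
        have hp2 := hp'
        rw [hT2, mem_filter, mem_product, mem_range, hI, mem_Icc] at hp1 hp2
        rw [hD, Nat.le_div_iff_mul_le (by omega)]
        obtain ⟨d, hd⟩ := Nat.exists_eq_add_of_le hle
        have h2 : p.2 - p'.2 = d := by omega
        rw [h2]
        have h3 : d * (p.2 + p'.2) + p.1 * v = p'.1 * v := by
          have : p.2 ^ 2 = d * (p.2 + p'.2) + p'.2 ^ 2 := by rw [hd]; ring
          omega
        have h4 : p'.1 * v ≤ R * v := Nat.mul_le_mul_right _ hp2.1.1.le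
        have h5 : d * (2 * N0) ≤ d * (p.2 + p'.2) := Nat.mul_le_mul_left _ (by omega)
        omega)
      (by
        intro n hn n' hn'
        rw [mem_image] at hn hn'
        obtain ⟨p, hp, rfl⟩ := hn
        obtain ⟨p', hp', rfl⟩ := hn'
        have h1 := heq p hp p' hp'
        have h2 : (p.1 : ℤ) * v + (p.2 : ℤ) ^ 2 = (p'.1 : ℤ) * v + (p'.2 : ℤ) ^ 2 := by
          exact_mod_cast h1
        refine ⟨(p'.1 : ℤ) - p.1, ?_⟩
        linear_combination h2)
    refine hcr.trans ?_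
    have h1 : (D : ℝ) / v ≤ R / N0 := by
      have h2 : (D : ℝ) ≤ (R * v : ℕ) / (2 * N0 : ℕ) := by rw [hD]; exact Nat.cast_div_le
      push_cast at h2
      calc (D : ℝ) / v ≤ (R * v / (2 * N0)) / v := div_le_div_of_nonneg_right h2 (by positivity)
        _ = R / (2 * N0) := by field_simp
        _ ≤ R / N0 := by
            apply div_le_div_of_nonneg_left (by positivity) (by positivity)
            linarith
    have h2 : (1 : ℝ) ≤ 16 * (R / N0) := by
      rw [mul_div_assoc', le_div_iff₀ (by positivity)]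
      linarith
    have h3 : (0 : ℝ) ≤ sg v := by positivity
    exact mul_le_mul_of_nonneg_right (by linarith) h3
  -- the main estimate for each `m`
  have hmain : ∀ m : ℕ, ∑ z : ZMod A, ‖P z‖ ^ 2 * ‖G m z‖ ^ 2 ≤
      A * (17 * (R / N0) * sg v) * (R * ∑ n ∈ I, ‖a n m‖ ^ 2) := by
    intro m
    have h1 : ∀ z : ZMod A, ‖P z‖ ^ 2 * ‖G m z‖ ^ 2 =
        ‖∑ p ∈ range R ×ˢ I, (a p.2 m * ps A (-((p.1 : ZMod A) * v * z'))) *
          ps A (((p.1 * v + p.2 ^ 2 : ℕ) : ZMod A) * z)‖ ^ 2 := by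
      intro z
      rw [← mul_pow, ← norm_mul, hP, hG]
      simp only
      rw [sum_mul_sum, sum_product]
      congr 2
      refine sum_congr rfl fun j _ => sum_congr rfl fun n _ => ?_
      have := Win.ps_sq_mul A v j n z z'
      linear_combination a n m * this
    simp only [h1]
    have h2 := Win.orth_le A (range R ×ˢ I)
      (fun p : ℕ × ℕ => ((p.1 * v + p.2 ^ 2 : ℕ) : ZMod A))
      (fun p : ℕ × ℕ => a p.2 m * ps A (-((p.1 : ZMod A) * v * z'))) _ hmult
    have h3 : ∑ p ∈ range R ×ˢ I, ‖a p.2 m * ps A (-((p.1 : ZMod A) * v * z'))‖ ^ 2 =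
        R * ∑ n ∈ I, ‖a n m‖ ^ 2 := by
      rw [sum_product]
      simp only [norm_mul, norm_ps, mul_one]
      rw [sum_const, card_range, nsmul_eq_mul]
    rw [h3] at h2
    have h4 := mul_le_mul_of_nonneg_left h2 hA0.le
    rw [← mul_assoc, mul_inv_cancel₀ hA0.ne', one_mul] at h4
    calc _ ≤ _ := h4
      _ = _ := by ring
  -- conclusion
  calc ∑ z ∈ univ.filter (fun z : ZMod A => nrm A (v * (z - z')) ≤ v * S / N ^ 2),
      ∑ y, ‖F A I N a z y‖ ^ 2
      = ∑ z ∈ univ.filter (fun z : ZMod A => nrm A (v * (z - z')) ≤ v * S / N ^ 2),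
        (A * ∑ m ∈ range N, ‖G m z‖ ^ 2) := sum_congr rfl fun z _ => hl2 z
    _ ≤ ∑ z ∈ univ.filter (fun z : ZMod A => nrm A (v * (z - z')) ≤ v * S / N ^ 2),
        (4 / (R : ℝ) ^ 2 * A * (‖P z‖ ^ 2 * ∑ m ∈ range N, ‖G m z‖ ^ 2)) := by
        refine sum_le_sum fun z hz => ?_
        have h1 := hPl z (mem_filter.1 hz).2
        have h2 : 0 ≤ (A : ℝ) * ∑ m ∈ range N, ‖G m z‖ ^ 2 := by positivity
        calc (A : ℝ) * ∑ m ∈ range N, ‖G m z‖ ^ 2
            ≤ (4 / (R : ℝ) ^ 2 * ‖P z‖ ^ 2) * (A * ∑ m ∈ range N, ‖G m z‖ ^ 2) :=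
              le_mul_of_one_le_left h2 h1
          _ = _ := by ring
    _ ≤ ∑ z : ZMod A, (4 / (R : ℝ) ^ 2 * A * (‖P z‖ ^ 2 * ∑ m ∈ range N, ‖G m z‖ ^ 2)) :=
        sum_le_sum_of_subset_of_nonneg (filter_subset _ _) fun z _ _ => by positivity
    _ = 4 / (R : ℝ) ^ 2 * A * ∑ m ∈ range N, ∑ z : ZMod A, ‖P z‖ ^ 2 * ‖G m z‖ ^ 2 := by
        rw [← mul_sum, sum_comm]
        congr 1
        refine sum_congr rfl fun z _ => ?_
        rw [mul_sum]
    _ ≤ 4 / (R : ℝ) ^ 2 * A * ∑ m ∈ range N,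
          (A * (17 * (R / N0) * sg v) * (R * ∑ n ∈ I, ‖a n m‖ ^ 2)) :=
        mul_le_mul_of_nonneg_left (sum_le_sum fun m _ => hmain m) (by positivity)
    _ = 68 * sg v / N0 * nsq I N a * A ^ 2 := by
        rw [← mul_sum, ← mul_sum]
        unfold nsq
        rw [sum_comm]
        field_simp
        ring

end Stz
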