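import Pool.Agent.Helper89.Stz.Defs

/-!
# D2: from the finite model to the integrals
-/

set_option autoImplicit false

namespace Stz

open Finset MeasureTheory

/-- the statement of `fin_main` -/
def FinMain : Prop := ∃ δ : ℝ, 0 < δ ∧ δ < 1 ∧ ∃ C : ℝ, 0 < C ∧
    ∀ (N b A : ℕ) [NeZero A], 1 ≤ N → Good ((N + b + 1) ^ 60) A → ∀ a : ℕ → ℕ → ℂ,
    (A : ℝ)⁻¹ ^ 2 * ∑ z : ZMod A, ∑ y : ZMod A,
      ‖F A (Icc (b + 1) (b + N)) N a z y‖ ^ (4 - δ) ≤
      C * (N : ℝ) ^ (1 - δ) * (nsq (Icc (b + 1) (b + N)) N a) ^ ((4 - δ) / 2)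

namespace FinInt

/-! ### the functional `J` -/

/-- the double integral over the unit square -/
noncomputable def J (g : ℝ → ℝ → ℝ) : ℝ := ∫ t in (0 : ℝ)..1, ∫ x in (0 : ℝ)..1, g t x

theorem cont_inner {g : ℝ → ℝ → ℝ} (hg : Continuous (Function.uncurry g)) :
    Continuous fun t => ∫ x in (0 : ℝ)..1, g t x :=
  intervalIntegral.continuous_parametric_intervalIntegral_of_continuous' hg 0 1

theorem cont_right {g : ℝ → ℝ → ℝ} (hg : Continuous (Function.uncurry g)) (t : ℝ) :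
    Continuous fun x => g t x := hg.comp (by fun_prop : Continuous fun x : ℝ => (t, x))

theorem cont_shift {g : ℝ → ℝ → ℝ} (hg : Continuous (Function.uncurry g)) (c d : ℝ) :
    Continuous (Function.uncurry fun t x => g (t + c) (x + d)) :=
  hg.comp (by fun_prop : Continuous fun v : ℝ × ℝ => (v.1 + c, v.2 + d))

theorem J_mono {g h : ℝ → ℝ → ℝ} (hg : Continuous (Function.uncurry g))
    (hh : Continuous (Function.uncurry h)) (hle : ∀ t x, g t x ≤ h t x) : J g ≤ J h := by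
  unfold J
  apply intervalIntegral.integral_mono_on (by norm_num) ((cont_inner hg).intervalIntegrable _ _)
    ((cont_inner hh).intervalIntegrable _ _)
  intro t _
  apply intervalIntegral.integral_mono_on (by norm_num) ((cont_right hg t).intervalIntegrable _ _)
    ((cont_right hh t).intervalIntegrable _ _)
  intro x _
  exact hle t x

theorem J_const (c : ℝ) : J (fun _ _ => c) = c := by
  unfold J
  simp

theorem J_smul (c : ℝ) (g : ℝ → ℝ → ℝ) : J (fun t x => c * g t x) = c * J g := by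
  unfold J
  simp only [intervalIntegral.integral_const_mul]

theorem J_sum {ι : Type*} (s : Finset ι) (g : ι → ℝ → ℝ → ℝ)
    (hg : ∀ i ∈ s, Continuous (Function.uncurry (g i))) :
    J (fun t x => ∑ i ∈ s, g i t x) = ∑ i ∈ s, J (g i) := by
  unfold J
  rw [← intervalIntegral.integral_finsetSum]
  · congr 1
    ext t
    rw [intervalIntegral.integral_finsetSum]
    intro i hi
    exact (cont_right (hg i hi) t).intervalIntegrable _ _
  · intro i hi
    exact (cont_inner (hg i hi)).intervalIntegrable _ _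

theorem shift1 {f : ℝ → ℝ} (hf : Function.Periodic f 1) (d : ℝ) :
    ∫ x in (0 : ℝ)..1, f (x + d) = ∫ x in (0 : ℝ)..1, f x := by
  rw [intervalIntegral.integral_comp_add_right]
  have := hf.intervalIntegral_add_eq d 0
  rw [zero_add] at this
  rw [zero_add, add_comm 1 d]
  exact this

theorem J_shear {g : ℝ → ℝ → ℝ} (h2 : ∀ t, Function.Periodic (g t) 1) (φ : ℝ → ℝ) :
    J (fun t x => g t (x + φ t)) = J g := by
  unfold J
  congr 1
  ext t
  exact shift1 (h2 t) (φ t)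

theorem J_shift {g : ℝ → ℝ → ℝ} (h1 : ∀ t x, g (t + 1) x = g t x)
    (h2 : ∀ t, Function.Periodic (g t) 1) (c d : ℝ) :
    J (fun t x => g (t + c) (x + d)) = J g := by
  have e1 : J (fun t x => g (t + c) (x + d)) = J (fun t x => g (t + c) x) :=
    J_shear (g := fun t x => g (t + c) x) (fun t => h2 (t + c)) (fun _ => d)
  rw [e1]
  unfold J
  exact shift1 (f := fun t => ∫ x in (0 : ℝ)..1, g t x)
    (fun t => by simp only [h1]) c

theorem J_neg {g : ℝ → ℝ → ℝ} (h1 : ∀ t x, g (t + 1) x = g t x) :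
    J (fun t x => g (-t) x) = J g := by
  unfold J
  set f : ℝ → ℝ := fun t => ∫ x in (0 : ℝ)..1, g t x with hf
  have hp : Function.Periodic f 1 := fun t => by simp only [hf, h1]
  show ∫ t in (0 : ℝ)..1, f (-t) = ∫ t in (0 : ℝ)..1, f t
  rw [intervalIntegral.integral_comp_neg]
  have := hp.intervalIntegral_add_eq (-1) 0
  simpa using this

/-! ### the exponential sums -/

theorem ex_add (x y : ℝ) : ex (x + y) = ex x * ex y := by
  unfold ex
  rw [← Complex.exp_add]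
  congr 1
  push_cast
  ring

theorem norm_ex (x : ℝ) : ‖ex x‖ = 1 := by
  unfold ex
  rw [show (2 * Real.pi * Complex.I * x : ℂ) = ((2 * Real.pi * x : ℝ) : ℂ) * Complex.I by
    push_cast; ring]
  exact Complex.norm_exp_ofReal_mul_I _

theorem ex_int (k : ℤ) : ex k = 1 := by
  unfold ex
  rw [show (2 * Real.pi * Complex.I * ((k : ℤ) : ℝ) : ℂ) = k * (2 * Real.pi * Complex.I) by
    push_cast; ring]
  exact Complex.exp_int_mul_two_pi_mul_I k

theorem cont_ex : Continuous ex := by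
  unfold ex
  fun_prop

/-- the exponential sum over naturals, on `ℝ²` -/
noncomputable def Phi (b M : ℕ) (a : ℕ → ℕ → ℂ) (t x : ℝ) : ℂ :=
  ∑ n ∈ Icc (b + 1) (b + M), ∑ m ∈ range M, a n m * ex (((n ^ 2 + m ^ 2 : ℕ) : ℝ) * t + m * x)

theorem Phi_per1 (b M : ℕ) (a : ℕ → ℕ → ℂ) (t x : ℝ) : Phi b M a (t + 1) x = Phi b M a t x := by
  unfold Phi
  refine sum_congr rfl fun n _ => sum_congr rfl fun m _ => ?_
  have h := ex_int ((n ^ 2 + m ^ 2 : ℕ) : ℤ)
  rw [show ((n ^ 2 + m ^ 2 : ℕ) : ℝ) * (t + 1) + m * x =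
    (((n ^ 2 + m ^ 2 : ℕ) : ℝ) * t + m * x) + (((n ^ 2 + m ^ 2 : ℕ) : ℤ) : ℝ) by
      push_cast; ring, ex_add, h, mul_one]

theorem Phi_per2 (b M : ℕ) (a : ℕ → ℕ → ℂ) (t x : ℝ) : Phi b M a t (x + 1) = Phi b M a t x := by
  unfold Phi
  refine sum_congr rfl fun n _ => sum_congr rfl fun m _ => ?_
  have h := ex_int (m : ℤ)
  rw [show ((n ^ 2 + m ^ 2 : ℕ) : ℝ) * t + m * (x + 1) =
    (((n ^ 2 + m ^ 2 : ℕ) : ℝ) * t + m * x) + ((m : ℤ) : ℝ) by
      push_cast; ring, ex_add, h, mul_one]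

theorem cont_Phi (b M : ℕ) (a : ℕ → ℕ → ℂ) : Continuous (Function.uncurry (Phi b M a)) := by
  unfold Phi Function.uncurry
  refine continuous_finsetSum _ fun n _ => continuous_finsetSum _ fun m _ => ?_
  exact continuous_const.mul (cont_ex.comp (by fun_prop))

theorem cont_pow {f : ℝ × ℝ → ℂ} (hf : Continuous f) {p : ℝ} (hp : 0 ≤ p) :
    Continuous fun w => ‖f w‖ ^ p :=
  hf.norm.rpow_const fun _ => Or.inr hp

theorem ps_mul_eq (A : ℕ) [NeZero A] (k m : ℕ) (z y : ZMod A) :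
    ps A ((k : ZMod A) * z + (m : ZMod A) * y) =
      ex ((k : ℝ) * ((z.val : ℝ) / A) + m * ((y.val : ℝ) / A)) := by
  have h1 : (k : ZMod A) * z + (m : ZMod A) * y =
      (((k * z.val + m * y.val : ℕ) : ℤ) : ZMod A) := by
    push_cast
    rw [ZMod.natCast_val, ZMod.natCast_val, ZMod.cast_id']
    rfl
  rw [h1]
  unfold ps ex
  rw [ZMod.stdAddChar_coe]
  congr 1
  push_cast
  ring

/-- the integral form of `fin_main` -/
theorem int_main (b M : ℕ) (p : ℝ) (hp : 0 ≤ p)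
    (a : ℕ → ℕ → ℂ) (B : ℝ)
    (hfin : ∀ (A : ℕ) [NeZero A], Good ((M + b + 1) ^ 60) A → ∀ a' : ℕ → ℕ → ℂ,
      nsq (Icc (b + 1) (b + M)) M a' = nsq (Icc (b + 1) (b + M)) M a →
      (A : ℝ)⁻¹ ^ 2 * ∑ z : ZMod A, ∑ y : ZMod A,
        ‖F A (Icc (b + 1) (b + M)) M a' z y‖ ^ p ≤ B) :
    J (fun t x => ‖Phi b M a t x‖ ^ p) ≤ B := by
  obtain ⟨A, hA0, hgood⟩ : ∃ A : ℕ, A ≠ 0 ∧ Good ((M + b + 1) ^ 60) A :=
    ⟨((M + b + 1) ^ 60).factorial, Nat.factorial_ne_zero _,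
      fun k h1 h2 => Nat.dvd_factorial h1 h2⟩
  have : NeZero A := ⟨hA0⟩
  have hAr : (A : ℝ) ≠ 0 := Nat.cast_ne_zero.2 hA0
  set g : ℝ → ℝ → ℝ := fun t x => ‖Phi b M a t x‖ ^ p with hg
  have hgc : Continuous (Function.uncurry g) := cont_pow (cont_Phi b M a) hp
  have hg1 : ∀ t x, g (t + 1) x = g t x := fun t x => by simp only [hg, Phi_per1]
  have hg2 : ∀ t, Function.Periodic (g t) 1 := fun t x => by simp only [hg, Phi_per2]
  -- averaging over the grid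
  have h1 : J g = J (fun t x => (A : ℝ)⁻¹ ^ 2 * ∑ w : ZMod A × ZMod A,
      g (t + (w.1.val : ℝ) / A) (x + (w.2.val : ℝ) / A)) := by
    rw [J_smul, J_sum]
    · simp only [J_shift hg1 hg2]
      rw [sum_const, nsmul_eq_mul, card_univ, Fintype.card_prod, ZMod.card]
      push_cast
      field_simp
    · intro w _
      exact cont_shift hgc _ _
  rw [h1]
  have h2 : J (fun _ _ => B) = B := J_const B
  rw [← h2]
  apply J_mono
  · have : ∀ w : ZMod A × ZMod A, Continuous (Function.uncurry fun t x : ℝ =>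
        g (t + (w.1.val : ℝ) / A) (x + (w.2.val : ℝ) / A)) := fun w => cont_shift hgc _ _
    exact continuous_const.mul (continuous_finsetSum _ fun w _ => this w)
  · exact continuous_const
  · intro t x
    have h3 := hfin A hgood
      (fun n m => a n m * ex (((n ^ 2 + m ^ 2 : ℕ) : ℝ) * t + m * x)) (by
        unfold nsq
        refine sum_congr rfl fun n _ => sum_congr rfl fun m _ => ?_
        rw [norm_mul, norm_ex, mul_one])
    refine le_trans (le_of_eq ?_) h3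
    rw [Fintype.sum_prod_type]
    congr 1
    refine sum_congr rfl fun z _ => sum_congr rfl fun y _ => ?_
    simp only [hg]
    congr 2
    unfold Phi F
    refine sum_congr rfl fun n _ => sum_congr rfl fun m _ => ?_
    rw [ps_mul_eq, mul_assoc, ← ex_add]
    congr 2
    ring

/-- the exponential sum over a finite set of integer points -/
noncomputable def Psi (S : Finset (ℤ × ℤ)) (c : ℤ × ℤ → ℂ) (t x : ℝ) : ℂ :=
  ∑ ξ ∈ S, c ξ * ex (x * ξ.2 + t * ((ξ.1 : ℝ) ^ 2 + (ξ.2 : ℝ) ^ 2))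

theorem cont_Psi (S : Finset (ℤ × ℤ)) (c : ℤ × ℤ → ℂ) :
    Continuous (Function.uncurry (Psi S c)) := by
  unfold Psi Function.uncurry
  refine continuous_finsetSum _ fun ξ _ => ?_
  exact continuous_const.mul (cont_ex.comp (by fun_prop))

theorem Psi_per1 (S : Finset (ℤ × ℤ)) (c : ℤ × ℤ → ℂ) (t x : ℝ) :
    Psi S c (t + 1) x = Psi S c t x := by
  unfold Psi
  refine sum_congr rfl fun ξ _ => ?_
  have h := ex_int (ξ.1 ^ 2 + ξ.2 ^ 2)
  rw [show x * (ξ.2 : ℝ) + (t + 1) * ((ξ.1 : ℝ) ^ 2 + (ξ.2 : ℝ) ^ 2) =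
    (x * ξ.2 + t * ((ξ.1 : ℝ) ^ 2 + (ξ.2 : ℝ) ^ 2)) + ((ξ.1 ^ 2 + ξ.2 ^ 2 : ℤ) : ℝ) by
      push_cast; ring, ex_add, h, mul_one]

/-- one piece -/
theorem piece (b M : ℕ) (p B : ℝ) (hp : 0 ≤ p) (S : Finset (ℤ × ℤ)) (c : ℤ × ℤ → ℂ)
    (e : ℤ × ℤ → ℕ × ℕ) (m1 k0 : ℤ) (he1 : ∀ ξ ∈ S, (e ξ).1 ∈ Icc (b + 1) (b + M))
    (he2 : ∀ ξ ∈ S, (e ξ).2 ∈ range M) (he3 : ∀ ξ ∈ S, ξ.2 = m1 + (e ξ).2)
    (he4 : ∀ ξ ∈ S, ξ.1 ^ 2 + k0 = ((e ξ).1 : ℤ) ^ 2) (he5 : Set.InjOn e S)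
    (hfin : ∀ (A : ℕ) [NeZero A], Good ((M + b + 1) ^ 60) A → ∀ a : ℕ → ℕ → ℂ,
      nsq (Icc (b + 1) (b + M)) M a ≤ ∑ ξ ∈ S, ‖c ξ‖ ^ 2 →
      (A : ℝ)⁻¹ ^ 2 * ∑ z : ZMod A, ∑ y : ZMod A,
        ‖F A (Icc (b + 1) (b + M)) M a z y‖ ^ p ≤ B) :
    J (fun t x => ‖Psi S c t x‖ ^ p) ≤ B := by
  classical
  set a : ℕ → ℕ → ℂ := fun n m => ∑ ξ ∈ S.filter (fun ξ => e ξ = (n, m)), c ξ with ha
  have hmaps : ∀ ξ ∈ S, e ξ ∈ Icc (b + 1) (b + M) ×ˢ range M := fun ξ hξ =>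
    mem_product.2 ⟨he1 ξ hξ, he2 ξ hξ⟩
  have hnsq : nsq (Icc (b + 1) (b + M)) M a ≤ ∑ ξ ∈ S, ‖c ξ‖ ^ 2 := by
    unfold nsq
    rw [← sum_product' (f := fun n m => ‖a n m‖ ^ 2),
      ← sum_fiberwise_of_maps_to (g := e) hmaps (fun ξ => ‖c ξ‖ ^ 2)]
    refine sum_le_sum fun w _ => ?_
    have hcard : (S.filter fun ξ => e ξ = (w.1, w.2)).card ≤ 1 := by
      rw [card_le_one]
      intro x hx y hy
      exact he5 (mem_filter.1 hx).1 (mem_filter.1 hy).1
        ((mem_filter.1 hx).2.trans (mem_filter.1 hy).2.symm)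
    rcases Nat.le_one_iff_eq_zero_or_eq_one.1 hcard with h0 | h0
    · rw [card_eq_zero] at h0
      simp only [ha, h0, sum_empty, norm_zero]
      rw [zero_pow (by norm_num)]
    · rw [card_eq_one] at h0
      obtain ⟨ξ0, h0⟩ := h0
      simp only [ha, h0, sum_singleton]
      exact le_rfl
  have hkey : ∀ t x, ‖Psi S c t x‖ = ‖Phi b M a t (x + 2 * m1 * t)‖ := by
    intro t x
    have h1 : Phi b M a t (x + 2 * m1 * t) = ∑ ξ ∈ S, c ξ *
        ex ((((e ξ).1 ^ 2 + (e ξ).2 ^ 2 : ℕ) : ℝ) * t + ((e ξ).2 : ℝ) * (x + 2 * m1 * t)) := by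
      unfold Phi
      rw [← sum_product' (f := fun n m => a n m * ex (((n ^ 2 + m ^ 2 : ℕ) : ℝ) * t +
        (m : ℝ) * (x + 2 * m1 * t))),
        ← sum_fiberwise_of_maps_to (g := e) hmaps (fun ξ => c ξ *
        ex ((((e ξ).1 ^ 2 + (e ξ).2 ^ 2 : ℕ) : ℝ) * t + ((e ξ).2 : ℝ) * (x + 2 * m1 * t)))]
      refine sum_congr rfl fun w _ => ?_
      simp only [ha]
      rw [sum_mul]
      refine sum_congr rfl fun ξ hξ => ?_
      have h2 : e ξ = w := (mem_filter.1 hξ).2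
      rw [h2]
    have h2 : Psi S c t x = ex (x * m1 + t * ((m1 : ℝ) ^ 2 - k0)) *
        Phi b M a t (x + 2 * m1 * t) := by
      rw [h1, mul_sum]
      unfold Psi
      refine sum_congr rfl fun ξ hξ => ?_
      have h3 : (ξ.2 : ℝ) = m1 + ((e ξ).2 : ℝ) := by exact_mod_cast he3 ξ hξ
      have h4 : (ξ.1 : ℝ) ^ 2 = ((e ξ).1 : ℝ) ^ 2 - k0 := by
        have : (ξ.1 : ℝ) ^ 2 + k0 = ((e ξ).1 : ℝ) ^ 2 := by exact_mod_cast he4 ξ hξ
        linarith
      rw [mul_left_comm, ← ex_add]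
      congr 2
      rw [h3, h4]
      push_cast
      ring
    rw [h2, norm_mul, norm_ex, one_mul]
  have h1 : J (fun t x => ‖Psi S c t x‖ ^ p) = J (fun t x => ‖Phi b M a t x‖ ^ p) := by
    simp only [hkey]
    exact J_shear (g := fun t x => ‖Phi b M a t x‖ ^ p)
      (fun t x => by simp only [Phi_per2]) (fun t => 2 * m1 * t)
  rw [h1]
  apply int_main b M p hp a B
  intro A _ hA a' ha'
  exact hfin A hA a' (ha'.le.trans hnsq)

/-- the three pieces together -/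
theorem pieces (hfin : FinMain) : ∃ p₀ : ℝ, 3 < p₀ ∧ p₀ < 4 ∧ ∃ C : ℝ, 0 < C ∧
    ∀ (n1 n2 m1 m2 : ℤ) (M : ℕ), 1 ≤ M → n2 - n1 < M → m2 - m1 < M → ∀ c : ℤ × ℤ → ℂ,
    J (fun t x => ‖Psi (Icc n1 n2 ×ˢ Icc m1 m2) c t x‖ ^ p₀) ≤
      C * (M : ℝ) ^ (p₀ - 3) * (∑ ξ ∈ Icc n1 n2 ×ˢ Icc m1 m2, ‖c ξ‖ ^ 2) ^ (p₀ / 2) := by
  classical
  obtain ⟨δ, hδ0, hδ1, C, hC, hF⟩ := hfin
  refine ⟨4 - δ, by linarith, by linarith, 3 * 3 ^ (4 - δ) * C, by positivity, ?_⟩
  intro n1 n2 m1 m2 M hM hn hm c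
  set p₀ : ℝ := 4 - δ with hp₀
  have hp0 : 0 ≤ p₀ := by linarith
  have hexp : p₀ - 3 = 1 - δ := by rw [hp₀]; ring
  set S := Icc n1 n2 ×ˢ Icc m1 m2 with hS
  set B : ℝ := C * (M : ℝ) ^ (p₀ - 3) * (∑ ξ ∈ S, ‖c ξ‖ ^ 2) ^ (p₀ / 2) with hB
  have hB0 : 0 ≤ B := by positivity
  have hfin' : ∀ (b : ℕ) (S' : Finset (ℤ × ℤ)), S' ⊆ S → ∀ (A : ℕ) [NeZero A],
      Good ((M + b + 1) ^ 60) A → ∀ a : ℕ → ℕ → ℂ,
      nsq (Icc (b + 1) (b + M)) M a ≤ ∑ ξ ∈ S', ‖c ξ‖ ^ 2 →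
      (A : ℝ)⁻¹ ^ 2 * ∑ z : ZMod A, ∑ y : ZMod A,
        ‖F A (Icc (b + 1) (b + M)) M a z y‖ ^ p₀ ≤ B := by
    intro b S' hS' A _ hA a ha
    have h1 := hF M b A hM hA a
    refine h1.trans ?_
    rw [hB, hexp]
    apply mul_le_mul_of_nonneg_left _ (by positivity)
    apply Real.rpow_le_rpow
    · unfold nsq; positivity
    · refine ha.trans (sum_le_sum_of_subset_of_nonneg hS' fun _ _ _ => sq_nonneg _)
    · positivity
  -- the pieces
  set S1 := S.filter fun ξ => 0 < ξ.1 with hS1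
  set S2 := S.filter fun ξ => ξ.1 = 0 with hS2
  set S3 := S.filter fun ξ => ξ.1 < 0 with hS3
  have hmem : ∀ ξ ∈ S, n1 ≤ ξ.1 ∧ ξ.1 ≤ n2 ∧ m1 ≤ ξ.2 ∧ ξ.2 ≤ m2 := by
    intro ξ hξ
    rw [hS, mem_product, mem_Icc, mem_Icc] at hξ
    exact ⟨hξ.1.1, hξ.1.2, hξ.2.1, hξ.2.2⟩
  have hJ1 : J (fun t x => ‖Psi S1 c t x‖ ^ p₀) ≤ B := by
    apply piece ((max n1 1 - 1).toNat) M p₀ B hp0 S1 c
      (fun ξ => (ξ.1.toNat, (ξ.2 - m1).toNat)) m1 0
    · intro ξ hξ
      have h1 := hmem ξ (mem_filter.1 hξ).1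
      have h2 := (mem_filter.1 hξ).2
      rw [mem_Icc]
      omega
    · intro ξ hξ
      have h1 := hmem ξ (mem_filter.1 hξ).1
      rw [mem_range]
      omega
    · intro ξ hξ
      have h1 := hmem ξ (mem_filter.1 hξ).1
      simp only
      omega
    · intro ξ hξ
      have h2 := (mem_filter.1 hξ).2
      simp only
      rw [Int.toNat_of_nonneg h2.le, add_zero]
    · intro ξ hξ η hη h
      have h1 := hmem ξ (mem_filter.1 hξ).1
      have h2 := (mem_filter.1 hξ).2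
      have h3 := hmem η (mem_filter.1 hη).1
      have h4 := (mem_filter.1 hη).2
      simp only [Prod.mk.injEq] at h
      exact Prod.ext (by omega) (by omega)
    · exact hfin' ((max n1 1 - 1).toNat) S1 (filter_subset _ _)
  have hJ2 : J (fun t x => ‖Psi S2 c t x‖ ^ p₀) ≤ B := by
    apply piece 0 M p₀ B hp0 S2 c (fun ξ => (1, (ξ.2 - m1).toNat)) m1 1
    · intro ξ hξ
      rw [mem_Icc]
      simp only
      omega
    · intro ξ hξ
      have h1 := hmem ξ (mem_filter.1 hξ).1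
      rw [mem_range]
      omega
    · intro ξ hξ
      have h1 := hmem ξ (mem_filter.1 hξ).1
      simp only
      omega
    · intro ξ hξ
      have h2 := (mem_filter.1 hξ).2
      simp only
      rw [h2]
      norm_num
    · intro ξ hξ η hη h
      have h1 := hmem ξ (mem_filter.1 hξ).1
      have h2 := (mem_filter.1 hξ).2
      have h3 := hmem η (mem_filter.1 hη).1
      have h4 := (mem_filter.1 hη).2
      simp only [Prod.mk.injEq, true_and] at h
      exact Prod.ext (by omega) (by omega)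
    · exact hfin' 0 S2 (filter_subset _ _)
  have hJ3 : J (fun t x => ‖Psi S3 c t x‖ ^ p₀) ≤ B := by
    apply piece ((max (-n2) 1 - 1).toNat) M p₀ B hp0 S3 c
      (fun ξ => ((-ξ.1).toNat, (ξ.2 - m1).toNat)) m1 0
    · intro ξ hξ
      have h1 := hmem ξ (mem_filter.1 hξ).1
      have h2 := (mem_filter.1 hξ).2
      rw [mem_Icc]
      omega
    · intro ξ hξ
      have h1 := hmem ξ (mem_filter.1 hξ).1
      rw [mem_range]
      omega
    · intro ξ hξ
      have h1 := hmem ξ (mem_filter.1 hξ).1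
      simp only
      omega
    · intro ξ hξ
      have h2 := (mem_filter.1 hξ).2
      simp only
      rw [Int.toNat_of_nonneg (by omega), add_zero]
      ring
    · intro ξ hξ η hη h
      have h1 := hmem ξ (mem_filter.1 hξ).1
      have h2 := (mem_filter.1 hξ).2
      have h3 := hmem η (mem_filter.1 hη).1
      have h4 := (mem_filter.1 hη).2
      simp only [Prod.mk.injEq] at h
      exact Prod.ext (by omega) (by omega)
    · exact hfin' ((max (-n2) 1 - 1).toNat) S3 (filter_subset _ _)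
  have hsplit : ∀ t x, Psi S c t x = Psi S1 c t x + Psi S2 c t x + Psi S3 c t x := by
    intro t x
    unfold Psi
    rw [← sum_filter_add_sum_filter_not S (fun ξ => 0 < ξ.1),
      ← sum_filter_add_sum_filter_not (S.filter fun ξ => ¬ 0 < ξ.1) (fun ξ => ξ.1 = 0),
      filter_filter, filter_filter, ← add_assoc]
    congr 1
    · congr 1
      apply sum_congr _ (fun _ _ => rfl)
      ext ξ
      simp only [hS2, mem_filter, and_congr_right_iff]
      intro _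
      omega
    · apply sum_congr _ (fun _ _ => rfl)
      ext ξ
      simp only [hS3, mem_filter, and_congr_right_iff]
      intro _
      omega
  have hpt : ∀ t x, ‖Psi S c t x‖ ^ p₀ ≤ 3 ^ p₀ * (‖Psi S1 c t x‖ ^ p₀ + ‖Psi S2 c t x‖ ^ p₀ +
      ‖Psi S3 c t x‖ ^ p₀) := by
    intro t x
    set u := ‖Psi S1 c t x‖ with hu
    set v := ‖Psi S2 c t x‖ with hv
    set w := ‖Psi S3 c t x‖ with hw
    have hu0 : 0 ≤ u := norm_nonneg _
    have hv0 : 0 ≤ v := norm_nonneg _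
    have hw0 : 0 ≤ w := norm_nonneg _
    have h1 : ‖Psi S c t x‖ ≤ 3 * max u (max v w) := by
      rw [hsplit]
      have h2 := norm_add₃_le (a := Psi S1 c t x) (b := Psi S2 c t x) (c := Psi S3 c t x)
      have h3 : u ≤ max u (max v w) := le_max_left _ _
      have h4 : v ≤ max u (max v w) := (le_max_left _ _).trans (le_max_right _ _)
      have h5 : w ≤ max u (max v w) := (le_max_right _ _).trans (le_max_right _ _)
      linarith
    have h6 : ‖Psi S c t x‖ ^ p₀ ≤ (3 * max u (max v w)) ^ p₀ :=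
      Real.rpow_le_rpow (norm_nonneg _) h1 hp0
    refine h6.trans ?_
    rw [Real.mul_rpow (by norm_num) (le_max_of_le_left hu0)]
    apply mul_le_mul_of_nonneg_left _ (by positivity)
    have e1 : 0 ≤ u ^ p₀ := by positivity
    have e2 : 0 ≤ v ^ p₀ := by positivity
    have e3 : 0 ≤ w ^ p₀ := by positivity
    rcases max_choice u (max v w) with h | h
    · rw [h]; linarith
    · rcases max_choice v w with h' | h'
      · rw [h, h']; linarith
      · rw [h, h']; linarith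
  have cc : ∀ S' : Finset (ℤ × ℤ), Continuous (Function.uncurry fun t x =>
      ‖Psi S' c t x‖ ^ p₀) := fun S' => cont_pow (cont_Psi S' c) hp0
  set gg : Fin 3 → ℝ → ℝ → ℝ := ![fun t x => ‖Psi S1 c t x‖ ^ p₀, fun t x => ‖Psi S2 c t x‖ ^ p₀,
    fun t x => ‖Psi S3 c t x‖ ^ p₀] with hgg
  have hggc : ∀ i, Continuous (Function.uncurry (gg i)) := by
    intro i
    fin_cases i
    · exact cc S1
    · exact cc S2
    · exact cc S3
  have hsum : J (fun t x => ∑ i, gg i t x) ≤ 3 * B := by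
    rw [J_sum _ _ (fun i _ => hggc i), Fin.sum_univ_three]
    have : J (gg 0) ≤ B := hJ1
    have : J (gg 1) ≤ B := hJ2
    have : J (gg 2) ≤ B := hJ3
    linarith
  calc J (fun t x => ‖Psi S c t x‖ ^ p₀)
      ≤ J (fun t x => 3 ^ p₀ * ∑ i, gg i t x) := by
        apply J_mono (cc S)
        · have : Continuous (Function.uncurry fun t x => ∑ i, gg i t x) :=
            continuous_finsetSum _ fun i _ => hggc i
          exact continuous_const.mul this
        · intro t x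
          rw [Fin.sum_univ_three]
          exact hpt t x
    _ = 3 ^ p₀ * J (fun t x => ∑ i, gg i t x) := J_smul _ _
    _ ≤ 3 ^ p₀ * (3 * B) := mul_le_mul_of_nonneg_left hsum (by positivity)
    _ = 3 * 3 ^ p₀ * C * (M : ℝ) ^ (p₀ - 3) * (∑ ξ ∈ S, ‖c ξ‖ ^ 2) ^ (p₀ / 2) := by
        rw [hB]; ring

theorem norm_Psi_le (S : Finset (ℤ × ℤ)) (c : ℤ × ℤ → ℂ) (M : ℝ) (hM : 0 ≤ M)
    (hS : (S.card : ℝ) ≤ M ^ 2) (t x : ℝ) :
    ‖Psi S c t x‖ ≤ M * Real.sqrt (∑ ξ ∈ S, ‖c ξ‖ ^ 2) := by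
  have h1 : ‖Psi S c t x‖ ≤ ∑ ξ ∈ S, ‖c ξ‖ := by
    unfold Psi
    refine (norm_sum_le _ _).trans (le_of_eq ?_)
    refine sum_congr rfl fun ξ _ => ?_
    rw [norm_mul, norm_ex, mul_one]
  have h2 := sum_mul_sq_le_sq_mul_sq S (fun ξ => ‖c ξ‖) (fun _ => 1)
  simp only [mul_one, one_pow, sum_const, nsmul_eq_mul, mul_one] at h2
  have h3 : (∑ ξ ∈ S, ‖c ξ‖) ^ 2 ≤ (M * Real.sqrt (∑ ξ ∈ S, ‖c ξ‖ ^ 2)) ^ 2 := by
    rw [mul_pow, Real.sq_sqrt (sum_nonneg fun _ _ => sq_nonneg _)]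
    refine h2.trans ?_
    rw [mul_comm]
    exact mul_le_mul_of_nonneg_right hS (sum_nonneg fun _ _ => sq_nonneg _)
  exact h1.trans (abs_le_of_sq_le_sq' h3 (by positivity)).2

theorem twoPi_integral (h : ℝ → ℝ → ℝ) (h1 : ∀ t x, h (t + 1) x = h t x) :
    ∫ t in Set.Icc (0 : ℝ) (2 * Real.pi), ∫ x in Set.Icc (0 : ℝ) (2 * Real.pi),
      h (-(t / (2 * Real.pi))) (x / (2 * Real.pi)) = (2 * Real.pi) ^ 2 * J h := by
  have hpi : (0 : ℝ) < 2 * Real.pi := by have := Real.pi_pos; positivity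
  have e1 : ∀ f : ℝ → ℝ, ∫ x in Set.Icc (0 : ℝ) (2 * Real.pi), f (x / (2 * Real.pi)) =
      (2 * Real.pi) * ∫ x in (0 : ℝ)..1, f x := by
    intro f
    rw [integral_Icc_eq_integral_Ioc, ← intervalIntegral.integral_of_le hpi.le,
      intervalIntegral.integral_comp_div _ hpi.ne', zero_div, div_self hpi.ne', smul_eq_mul]
  have e2 : ∀ t : ℝ, ∫ x in Set.Icc (0 : ℝ) (2 * Real.pi),
      h (-(t / (2 * Real.pi))) (x / (2 * Real.pi)) =
      (2 * Real.pi) * ∫ x in (0 : ℝ)..1, h (-(t / (2 * Real.pi))) x := fun t => e1 _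
  simp only [e2]
  rw [e1 (fun t => (2 * Real.pi) * ∫ x in (0 : ℝ)..1, h (-t) x),
    intervalIntegral.integral_const_mul, ← mul_assoc, ← sq]
  congr 1
  exact J_neg h1

end FinInt

open FinInt in
/-- the result, from the finite model -/
theorem result_of_finMain (hfin : FinMain) :
    ∃ p₀ : ℝ, 3 < p₀ ∧ p₀ < 4 ∧ ∀ p : ℝ, p₀ ≤ p → ∃ C : ℝ, 0 < C ∧
    ∀ (b₀ b₁ N : ℝ), 1 < N → ∀ a : ℤ × ℤ → ℂ,
    (∫ t in Set.Icc (0 : ℝ) (2 * Real.pi), ∫ x in Set.Icc (0 : ℝ) (2 * Real.pi),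
      ‖∑ ξ ∈ Finset.Icc ⌈b₀⌉ ⌊b₀ + N⌋ ×ˢ Finset.Icc ⌈b₁⌉ ⌊b₁ + N⌋,
        a ξ * Complex.exp (Complex.I * (x * ξ.2 - t * (ξ.1 ^ 2 + ξ.2 ^ 2)))‖ ^ p) ^ (1 / p) ≤
      C * N ^ (1 - 3 / p) *
        Real.sqrt (∑ ξ ∈ Finset.Icc ⌈b₀⌉ ⌊b₀ + N⌋ ×ˢ Finset.Icc ⌈b₁⌉ ⌊b₁ + N⌋, ‖a ξ‖ ^ 2) := by
  obtain ⟨p₀, hp3, hp4, C, hC, hmain⟩ := pieces hfin
  refine ⟨p₀, hp3, hp4, ?_⟩
  intro p hp
  have hpi := Real.pi_pos
  have hp0 : 0 < p := by linarith
  refine ⟨((2 * Real.pi) ^ 2 * C) ^ (1 / p) * 2, by positivity, ?_⟩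
  intro b₀ b₁ N hN a
  set S := Finset.Icc ⌈b₀⌉ ⌊b₀ + N⌋ ×ˢ Finset.Icc ⌈b₁⌉ ⌊b₁ + N⌋ with hS
  set s : ℝ := Real.sqrt (∑ ξ ∈ S, ‖a ξ‖ ^ 2) with hs
  have hs0 : 0 ≤ s := Real.sqrt_nonneg _
  -- the integer length
  set M : ℕ := ⌊N⌋₊ + 1 with hM
  have hM1 : 1 ≤ M := by omega
  have hMN : N < M := by rw [hM]; push_cast; exact Nat.lt_floor_add_one N
  have hMN2 : (M : ℝ) ≤ 2 * N := by
    rw [hM]; push_cast
    have := Nat.floor_le (by linarith : 0 ≤ N)
    linarith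
  have hlen : ∀ b : ℝ, ⌊b + N⌋ - ⌈b⌉ < (M : ℤ) := by
    intro b
    have h1 := Int.floor_le (b + N)
    have h2 := Int.le_ceil b
    have h3 : ((⌊b + N⌋ - ⌈b⌉ : ℤ) : ℝ) < ((M : ℤ) : ℝ) := by
      push_cast
      linarith
    exact_mod_cast h3
  have hcardI : ∀ b : ℝ, ((Finset.Icc ⌈b⌉ ⌊b + N⌋).card : ℝ) ≤ M := by
    intro b
    have h1 := hlen b
    rw [Int.card_Icc]
    have : (⌊b + N⌋ + 1 - ⌈b⌉).toNat ≤ M := by omega
    exact_mod_cast this
  have hcard : (S.card : ℝ) ≤ (M : ℝ) ^ 2 := by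
    rw [hS, card_product, Nat.cast_mul, sq]
    exact mul_le_mul (hcardI b₀) (hcardI b₁) (by positivity) (by positivity)
  have hMr : (1 : ℝ) ≤ M := by exact_mod_cast hM1
  -- rewrite the integral
  have hint : (∫ t in Set.Icc (0 : ℝ) (2 * Real.pi), ∫ x in Set.Icc (0 : ℝ) (2 * Real.pi),
      ‖∑ ξ ∈ S, a ξ * Complex.exp (Complex.I * (x * ξ.2 - t * (ξ.1 ^ 2 + ξ.2 ^ 2)))‖ ^ p) =
      (2 * Real.pi) ^ 2 * J (fun t x => ‖Psi S a t x‖ ^ p) := by
    rw [← twoPi_integral (fun t x => ‖Psi S a t x‖ ^ p) (fun t x => by simp only [Psi_per1])]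
    congr 1
    ext t
    congr 1
    ext x
    congr 2
    unfold Psi ex
    refine sum_congr rfl fun ξ _ => ?_
    congr 2
    push_cast
    field_simp
    ring
  have hJ : J (fun t x => ‖Psi S a t x‖ ^ p) ≤ C * (M : ℝ) ^ (p - 3) * s ^ p := by
    have h1 : ∀ t x, ‖Psi S a t x‖ ^ p ≤ (M * s) ^ (p - p₀) * ‖Psi S a t x‖ ^ p₀ := by
      intro t x
      have h2 := norm_Psi_le S a M (by positivity) hcard t x
      have h3 : ‖Psi S a t x‖ ^ p = ‖Psi S a t x‖ ^ (p - p₀) * ‖Psi S a t x‖ ^ p₀ := by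
        rw [← Real.rpow_add_of_nonneg (norm_nonneg _) (by linarith) (by linarith)]
        congr 1
        ring
      rw [h3]
      exact mul_le_mul_of_nonneg_right
        (Real.rpow_le_rpow (norm_nonneg _) h2 (by linarith)) (by positivity)
    have h4 : J (fun t x => ‖Psi S a t x‖ ^ p) ≤
        (M * s) ^ (p - p₀) * J (fun t x => ‖Psi S a t x‖ ^ p₀) := by
      rw [← J_smul]
      have hc1 : Continuous (Function.uncurry fun t x => ‖Psi S a t x‖ ^ p) :=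
        cont_pow (cont_Psi S a) hp0.le
      apply J_mono hc1
      · have : Continuous (Function.uncurry fun t x => ‖Psi S a t x‖ ^ p₀) :=
          cont_pow (cont_Psi S a) (by linarith)
        exact continuous_const.mul this
      · exact h1
    have h5 := hmain ⌈b₀⌉ ⌊b₀ + N⌋ ⌈b₁⌉ ⌊b₁ + N⌋ M hM1 (hlen b₀) (hlen b₁) a
    have h6 : (∑ ξ ∈ S, ‖a ξ‖ ^ 2) ^ (p₀ / 2) = s ^ p₀ := by
      have h7 : ∑ ξ ∈ S, ‖a ξ‖ ^ 2 = s ^ (2 : ℝ) := by
        rw [Real.rpow_two, hs, Real.sq_sqrt (sum_nonneg fun _ _ => sq_nonneg _)]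
      rw [h7, ← Real.rpow_mul hs0]
      congr 1
      ring
    rw [h6] at h5
    calc J (fun t x => ‖Psi S a t x‖ ^ p)
        ≤ (M * s) ^ (p - p₀) * J (fun t x => ‖Psi S a t x‖ ^ p₀) := h4
      _ ≤ (M * s) ^ (p - p₀) * (C * (M : ℝ) ^ (p₀ - 3) * s ^ p₀) :=
          mul_le_mul_of_nonneg_left h5 (by positivity)
      _ = C * ((M : ℝ) ^ (p - p₀) * (M : ℝ) ^ (p₀ - 3)) * (s ^ (p - p₀) * s ^ p₀) := by
          rw [Real.mul_rpow (by positivity) hs0]; ring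
      _ = C * (M : ℝ) ^ (p - 3) * s ^ p := by
          rw [← Real.rpow_add (by linarith), ← Real.rpow_add_of_nonneg hs0 (by linarith)
            (by linarith)]
          congr 3 <;> ring
  have hJ0 : 0 ≤ J (fun t x => ‖Psi S a t x‖ ^ p) := by
    have hc1 : Continuous (Function.uncurry fun t x => ‖Psi S a t x‖ ^ p) :=
      cont_pow (cont_Psi S a) hp0.le
    have : J (fun _ _ => 0) ≤ J (fun t x => ‖Psi S a t x‖ ^ p) := by
      apply J_mono continuous_const hc1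
      intro t x
      positivity
    rwa [J_const] at this
  rw [hint]
  calc ((2 * Real.pi) ^ 2 * J (fun t x => ‖Psi S a t x‖ ^ p)) ^ (1 / p)
      ≤ ((2 * Real.pi) ^ 2 * (C * (M : ℝ) ^ (p - 3) * s ^ p)) ^ (1 / p) := by
        apply Real.rpow_le_rpow (by positivity) _ (by positivity)
        exact mul_le_mul_of_nonneg_left hJ (by positivity)
    _ = (((2 * Real.pi) ^ 2 * C) * ((M : ℝ) ^ (p - 3) * s ^ p)) ^ (1 / p) := by
        congr 1; ring
    _ = ((2 * Real.pi) ^ 2 * C) ^ (1 / p) * ((M : ℝ) ^ (1 - 3 / p) * s) := by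
        have e1 : ((M : ℝ) ^ (p - 3) * s ^ p) ^ (1 / p) = (M : ℝ) ^ (1 - 3 / p) * s := by
          rw [Real.mul_rpow (by positivity) (by positivity), ← Real.rpow_mul (by positivity),
            ← Real.rpow_mul hs0, mul_one_div_cancel hp0.ne', Real.rpow_one]
          congr 2
          field_simp
        rw [Real.mul_rpow (x := (2 * Real.pi) ^ 2 * C) (by positivity) (by positivity), e1]
    _ ≤ ((2 * Real.pi) ^ 2 * C) ^ (1 / p) * (2 * N ^ (1 - 3 / p) * s) := by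
        apply mul_le_mul_of_nonneg_left _ (by positivity)
        apply mul_le_mul_of_nonneg_right _ hs0
        have he0 : 0 ≤ 1 - 3 / p := by
          rw [sub_nonneg, div_le_one hp0]
          linarith
        have he1 : 1 - 3 / p ≤ 1 := by
          have : 0 ≤ 3 / p := by positivity
          linarith
        calc (M : ℝ) ^ (1 - 3 / p) ≤ (2 * N) ^ (1 - 3 / p) :=
              Real.rpow_le_rpow (by positivity) hMN2 he0
          _ = 2 ^ (1 - 3 / p) * N ^ (1 - 3 / p) :=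
              Real.mul_rpow (by norm_num) (by linarith)
          _ ≤ 2 * N ^ (1 - 3 / p) := by
              apply mul_le_mul_of_nonneg_right _ (by positivity)
              calc (2 : ℝ) ^ (1 - 3 / p) ≤ 2 ^ (1 : ℝ) :=
                    Real.rpow_le_rpow_of_exponent_le (by norm_num) he1
                _ = 2 := Real.rpow_one 2
    _ = ((2 * Real.pi) ^ 2 * C) ^ (1 / p) * 2 * N ^ (1 - 3 / p) * s := by ring

end Stz
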